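import Pool.Agent.TH977.Cyc.CircLim

/-!
# Circulant graphs on every vertex number: product condition, exponential profile, no cutoff

For every sequence `n_k → ∞` there are connected circulant graphs `G_k` on `ℤ/n_k` whose lazy
simple random walks satisfy the product condition but have no cutoff in total variation.
-/

open Finset Filter Topology

namespace Pool.Agent.Results.MP_4b7267_pr.CirculantNoCutoff

noncomputable section

/-- The graph `G` is vertex-transitive: its automorphism group acts transitively. -/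
def VertexTransitive {V : Type} (G : SimpleGraph V) : Prop :=
  ∀ x y : V, ∃ φ : G ≃g G, φ x = y

/-- A graph on `ℤ/n` is circulant if it is a Cayley graph: `x ~ y` iff `y - x ∈ S`. -/
def Circulant {n : ℕ} (G : SimpleGraph (ZMod n)) : Prop :=
  ∃ S : Set (ZMod n), ∀ x y, G.Adj x y ↔ y - x ∈ S

/-- Transition matrix `P = (1/2)(I + D⁻¹A)` of the lazy simple random walk on `G`. -/
def lazySRW {V : Type} [Fintype V] [DecidableEq V] (G : SimpleGraph V) [DecidableRel G.Adj] :
    Matrix V V ℝ :=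
  fun x y => (if x = y then 1 / 2 else 0) + (if G.Adj x y then 1 / (2 * (G.degree x : ℝ)) else 0)

/-- Total variation distance to stationarity, `d(t) = max_x ‖P^t(x,·) - π‖_TV` with `π` the
uniform distribution on `V`. -/
def d {V : Type} [Fintype V] [DecidableEq V] (P : Matrix V V ℝ) (t : ℕ) : ℝ :=
  ⨆ x : V, (1 / 2 : ℝ) * ∑ y, |(P ^ t) x y - 1 / (Fintype.card V : ℝ)|

/-- Total variation mixing time `t_mix(ε) = min {t : d(t) ≤ ε}`. -/
def Tmix {V : Type} [Fintype V] [DecidableEq V] (P : Matrix V V ℝ) (ε : ℝ) : ℕ :=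
  sInf {t : ℕ | d P t ≤ ε}

/-- The second largest eigenvalue of an irreducible transition matrix `P` (for which the
eigenvalue `1` is simple): the largest real eigenvalue different from `1`. -/
def lambda2 {V : Type} [Fintype V] [DecidableEq V] (P : Matrix V V ℝ) : ℝ :=
  sSup (spectrum ℝ P \ {1})

/-- Relaxation time `t_rel = 1 / (1 - λ₂)`. -/
def Trel {V : Type} [Fintype V] [DecidableEq V] (P : Matrix V V ℝ) : ℝ :=
  1 / (1 - lambda2 P)

/-- The product condition `t_mix / t_rel → ∞`, with `t_mix = t_mix(1/4)`. -/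
def ProductCondition (V : ℕ → Type) [∀ k, Fintype (V k)] [∀ k, DecidableEq (V k)]
    (P : ∀ k, Matrix (V k) (V k) ℝ) : Prop :=
  Tendsto (fun k => (Tmix (P k) (1 / 4) : ℝ) / Trel (P k)) atTop atTop

/-- Total variation cutoff: `t_mix(ε) / t_mix(1-ε) → 1` for every fixed `ε ∈ (0,1)`. -/
def HasCutoff (V : ℕ → Type) [∀ k, Fintype (V k)] [∀ k, DecidableEq (V k)]
    (P : ∀ k, Matrix (V k) (V k) ℝ) : Prop :=
  ∀ ε : ℝ, 0 < ε → ε < 1 →
    Tendsto (fun k => (Tmix (P k) ε : ℝ) / (Tmix (P k) (1 - ε) : ℝ)) atTop (𝓝 1)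

open Pool.Agent.TH977

section one

variable {n : ℕ} [NeZero n]

/-- the circulant graph with connection set `S` -/
def circ (S : Finset (ZMod n)) (h0 : 0 ∉ S) (hn : ∀ s ∈ S, -s ∈ S) : SimpleGraph (ZMod n) where
  Adj x y := y - x ∈ S
  symm := ⟨fun x y h => by
    have := hn _ h
    rwa [neg_sub] at this⟩
  loopless := ⟨fun x h => by
    rw [sub_self] at h
    exact h0 h⟩

instance (S : Finset (ZMod n)) (h0 : 0 ∉ S) (hn : ∀ s ∈ S, -s ∈ S) :
    DecidableRel (circ S h0 hn).Adj := fun x y => inferInstanceAs (Decidable (y - x ∈ S))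

variable {S : Finset (ZMod n)} {h0 : 0 ∉ S} {hn : ∀ s ∈ S, -s ∈ S}

theorem circ_adj {x y : ZMod n} : (circ S h0 hn).Adj x y ↔ y - x ∈ S := Iff.rfl

theorem circ_circulant : Circulant (circ S h0 hn) := ⟨S, fun _ _ => Iff.rfl⟩

theorem circ_transitive : VertexTransitive (circ S h0 hn) := by
  intro x y
  refine ⟨⟨Equiv.addRight (y - x), ?_⟩, ?_⟩
  · intro u v
    rw [circ_adj, circ_adj]
    simp
  · change x + (y - x) = y
    abel

theorem circ_degree (x : ZMod n) : (circ S h0 hn).degree x = S.card := by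
  rw [← SimpleGraph.card_neighborFinset_eq_degree]
  refine Finset.card_bij' (fun y _ => y - x) (fun s _ => x + s) ?_ ?_ ?_ ?_
  · intro y hy
    rw [SimpleGraph.mem_neighborFinset] at hy
    exact hy
  · intro s hs
    rw [SimpleGraph.mem_neighborFinset, circ_adj]
    simpa using hs
  · intro y _; simp
  · intro s _; simp

theorem lazySRW_eq (x y : ZMod n) : lazySRW (circ S h0 hn) x y = Cyc.lz S (y - x) := by
  unfold lazySRW Cyc.lz Cyc.dl Cyc.uo
  rw [circ_degree]
  simp only [circ_adj, Pi.add_apply, Pi.smul_apply, smul_eq_mul]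
  congr 1
  · by_cases h : x = y
    · rw [if_pos h, if_pos (by rw [h, sub_self])]; norm_num
    · rw [if_neg h, if_neg (fun e => h (sub_eq_zero.mp e).symm)]; norm_num
  · by_cases h : y - x ∈ S
    · rw [if_pos h, if_pos h, one_div_mul_one_div]
    · rw [if_neg h, if_neg h, mul_zero]

theorem pow_eq (t : ℕ) (x y : ZMod n) :
    ((lazySRW (circ S h0 hn)) ^ t) x y = Cyc.cpow (Cyc.lz S) t (y - x) := by
  induction t generalizing y with
  | zero =>
    rw [pow_zero, Matrix.one_apply]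
    change _ = if y - x = 0 then (1 : ℝ) else 0
    by_cases h : x = y
    · rw [if_pos h, if_pos (by rw [h, sub_self])]
    · rw [if_neg h, if_neg (fun e => h (sub_eq_zero.mp e).symm)]
  | succ t ih =>
    rw [pow_succ, Matrix.mul_apply, Cyc.cpow, Cyc.conv]
    simp only [ih, lazySRW_eq]
    refine Fintype.sum_equiv (Equiv.subRight x) _ _ fun z => ?_
    simp only [Equiv.subRight_apply]
    congr 2
    abel

theorem d_eq (t : ℕ) : d (lazySRW (circ S h0 hn)) t = Cyc.tv (Cyc.cpow (Cyc.lz S) t) := by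
  unfold d Cyc.tv
  have h1 : ∀ x : ZMod n, (1 / 2 : ℝ) * ∑ y, |((lazySRW (circ S h0 hn)) ^ t) x y -
      1 / (Fintype.card (ZMod n) : ℝ)| =
      (1 / 2) * ∑ y, |Cyc.cpow (Cyc.lz S) t y - 1 / (n : ℝ)| := by
    intro x
    congr 1
    refine Fintype.sum_equiv (Equiv.subRight x) _ _ fun y => ?_
    rw [pow_eq, ZMod.card]
    rfl
  simp only [h1]
  exact ciSup_const

theorem F_lz (j : ZMod n) : Cyc.F (Cyc.lz S) j = 1 / 2 + 1 / 2 * Cyc.F (Cyc.uo S) j := by
  unfold Cyc.lz
  rw [Cyc.F_add, Cyc.F_smul, Cyc.F_smul, Cyc.F_dl]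
  push_cast
  ring

theorem norm_F_lz {j : ZMod n} (h : ‖Cyc.F (Cyc.uo S) j‖ ≤ 1 / 2) :
    ‖Cyc.F (Cyc.lz S) j‖ ≤ 3 / 4 := by
  rw [F_lz]
  refine (norm_add_le _ _).trans ?_
  rw [norm_mul]
  have : ‖(1 / 2 : ℂ)‖ = 1 / 2 := by norm_num
  rw [this]
  linarith

theorem spectrum_le (hS : S.Nonempty) (hF : ∀ j, j ≠ 0 → ‖Cyc.F (Cyc.uo S) j‖ ≤ 1 / 2) {lam : ℝ}
    (h : lam ∈ spectrum ℝ (lazySRW (circ S h0 hn))) (h1 : lam ≠ 1) : lam ≤ 3 / 4 := by
  rw [← Matrix.spectrum_toLin', ← Module.End.hasEigenvalue_iff_mem_spectrum] at h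
  obtain ⟨v, hv⟩ := h.exists_hasEigenvector
  have hv0 := hv.2
  have hv1 := hv.apply_eq_smul
  rw [Matrix.toLin'_apply] at hv1
  have hconv : Cyc.conv v (Cyc.lz S) = lam • v := by
    funext x
    rw [← hv1, Cyc.conv, Matrix.mulVec, dotProduct]
    refine Finset.sum_congr rfl fun y _ => ?_
    rw [lazySRW_eq, mul_comm]
    congr 1
    unfold Cyc.lz Cyc.dl Cyc.uo
    simp only [Pi.add_apply, Pi.smul_apply, smul_eq_mul]
    congr 2
    · by_cases h : x = y
      · rw [h]
      · rw [if_neg (fun e => h (sub_eq_zero.mp e)), if_neg (fun e => h (sub_eq_zero.mp e).symm)]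
    · by_cases h : y - x ∈ S
      · have h3 := hn _ h
        rw [neg_sub] at h3
        rw [if_pos h, if_pos h3]
      · have h3 : x - y ∉ S := fun h4 => h (by have := hn _ h4; rwa [neg_sub] at this)
        rw [if_neg h, if_neg h3]
  have hFv : ∃ j, Cyc.F v j ≠ 0 := by
    by_contra hcon
    push Not at hcon
    have h2 := Cyc.parseval v
    simp only [hcon, norm_zero] at h2
    rw [Finset.sum_eq_zero (fun _ _ => by norm_num)] at h2
    have h3 : ∑ x, v x ^ 2 = 0 := by
      rcases mul_eq_zero.mp h2.symm with h4 | h4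
      · exact absurd h4 Cyc.npos.ne'
      · exact h4
    apply hv0
    funext x
    have h4 := (Finset.sum_eq_zero_iff_of_nonneg (fun x _ => sq_nonneg (v x))).mp h3 x
      (Finset.mem_univ x)
    exact pow_eq_zero_iff (two_ne_zero) |>.mp h4
  obtain ⟨j, hj⟩ := hFv
  have h2 := congrArg (fun f => Cyc.F f j) hconv
  simp only [Cyc.F_conv, Cyc.F_smul] at h2
  rw [mul_comm] at h2
  have h3 : Cyc.F (Cyc.lz S) j = (lam : ℂ) := mul_right_cancel₀ hj h2
  by_cases hj0 : j = 0
  · exfalso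
    apply h1
    rw [hj0, Cyc.F_zero, Cyc.lz_sum hS] at h3
    exact_mod_cast h3.symm
  · have h4 := norm_F_lz (hF j hj0)
    rw [h3, Complex.norm_real, Real.norm_eq_abs] at h4
    exact (le_abs_self _).trans h4

theorem trel_le (hS : S.Nonempty) (hF : ∀ j, j ≠ 0 → ‖Cyc.F (Cyc.uo S) j‖ ≤ 1 / 2) :
    0 < Trel (lazySRW (circ S h0 hn)) ∧ Trel (lazySRW (circ S h0 hn)) ≤ 4 := by
  have h1 : lambda2 (lazySRW (circ S h0 hn)) ≤ 3 / 4 := by
    refine Real.sSup_le (fun lam h => ?_) (by norm_num)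
    exact spectrum_le hS hF h.1 h.2
  unfold Trel
  constructor
  · exact one_div_pos.mpr (by linarith)
  · rw [div_le_iff₀ (by linarith)]
    linarith

theorem reach_of_pow (t : ℕ) (x y : ZMod n) (h : ((lazySRW (circ S h0 hn)) ^ t) x y ≠ 0) :
    (circ S h0 hn).Reachable x y := by
  induction t generalizing y with
  | zero =>
    rw [pow_zero, Matrix.one_apply] at h
    by_cases hxy : x = y
    · rw [hxy]
    · rw [if_neg hxy] at h; exact absurd rfl h
  | succ t ih =>
    rw [pow_succ, Matrix.mul_apply] at h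
    obtain ⟨z, _, hz⟩ := Finset.exists_ne_zero_of_sum_ne_zero h
    have h1 := ih z (left_ne_zero_of_mul hz)
    have h2 := right_ne_zero_of_mul hz
    by_cases hzy : z = y
    · rwa [hzy] at h1
    · have h3 : (circ S h0 hn).Adj z y := by
        by_contra hcon
        apply h2
        unfold lazySRW
        rw [if_neg hzy, if_neg hcon, add_zero]
      exact h1.trans h3.reachable

theorem circ_connected (hS : S.Nonempty) (hF : ∀ j, j ≠ 0 → ‖Cyc.F (Cyc.uo S) j‖ ≤ 1 / 2) :
    (circ S h0 hn).Connected := by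
  have hnp := Cyc.npos (n := n)
  obtain ⟨t, ht⟩ := Cyc.exists_tv_le (ν := Cyc.lz S) (lam := 3 / 4) (by norm_num) (by norm_num)
    (Cyc.lz_sum hS) (fun j hj => norm_F_lz (hF j hj)) (show (0 : ℝ) < 1 / (4 * (n : ℝ)) by positivity)
  have h1 : ∀ x, Cyc.cpow (Cyc.lz S) t x ≠ 0 := Cyc.cpow_ne_zero_of_tv (ht.trans_lt (by
    rw [div_lt_div_iff₀ (by positivity) (by positivity)]
    linarith))
  have : Nonempty (ZMod n) := ⟨0⟩
  refine SimpleGraph.Connected.mk fun x y => ?_
  apply reach_of_pow t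
  rw [pow_eq]
  exact h1 _

end one

/-- **Circulant graphs with the product condition and without cutoff, for every vertex number.**
For every sequence `n_k → ∞` there are connected circulant (hence vertex-transitive) simple graphs
`G_k` on `ℤ/n_k` such that the lazy simple random walks satisfy `t_rel ≤ 4` for large `k` and the
product condition, and have no cutoff in total variation; in fact there is a time scale
`τ_k → ∞` on which the distance to stationarity has the exponential profile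
`d_k(⌊c τ_k⌋) → e^{-c}` for every `c > 0`, so that
`t_mix(ε) / t_mix(ε') → log ε / log ε'` for all `ε, ε' ∈ (0,1)`. -/
theorem result (n : ℕ → ℕ) [∀ k, NeZero (n k)] (hn : Tendsto n atTop atTop) :
    ∃ (G : ∀ k, SimpleGraph (ZMod (n k))) (_ : ∀ k, DecidableRel (G k).Adj),
      (∀ k, Circulant (G k)) ∧ (∀ k, VertexTransitive (G k)) ∧ (∀ k, (G k).Connected) ∧
      (∀ᶠ k in atTop, Trel (lazySRW (G k)) ≤ 4) ∧
      ProductCondition (fun k => ZMod (n k)) (fun k => lazySRW (G k)) ∧
      (∃ τ : ℕ → ℝ, Tendsto τ atTop atTop ∧ ∀ c : ℝ, 0 < c →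
        Tendsto (fun k => d (lazySRW (G k)) ⌊c * τ k⌋₊) atTop (𝓝 (Real.exp (-c)))) ∧
      (∀ ε ε' : ℝ, 0 < ε → ε < 1 → 0 < ε' → ε' < 1 →
        Tendsto (fun k => (Tmix (lazySRW (G k)) ε : ℝ) / (Tmix (lazySRW (G k)) ε' : ℝ)) atTop
          (𝓝 (Real.log ε / Real.log ε'))) ∧
      ¬ HasCutoff (fun k => ZMod (n k)) (fun k => lazySRW (G k)) := by
  classical
  have hn1 : ∀ᶠ k in atTop, Cyc.Num (n k) := hn.eventually Cyc.num_ev
  -- the sets
  let Q : ∀ k, (Finset (ZMod (n k)) × Finset (ZMod (n k)) × Finset (ZMod (n k))) → Prop :=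
    fun k x => Cyc.Num (n k) ∧ Cyc.GoodSets (n k) x.1 x.2.1 x.2.2
  have hex : ∀ᶠ k in atTop, ∃ x, Q k x := by
    filter_upwards [hn1] with k hk
    obtain ⟨A, B, U, hg⟩ := Cyc.exists_sets hk
    exact ⟨(A, B, U), hk, hg⟩
  let X : ∀ k, Finset (ZMod (n k)) × Finset (ZMod (n k)) × Finset (ZMod (n k)) := fun k =>
    if h : ∃ x, Q k x then Classical.choose h else (univ.erase 0, ∅, ∅)
  have hX : ∀ k, (∃ x, Q k x) → Q k (X k) := by
    intro k hk
    have e : X k = Classical.choose hk := dif_pos hk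
    rw [e]
    exact Classical.choose_spec hk
  have hX' : ∀ k, ¬ (∃ x, Q k x) → X k = (univ.erase 0, ∅, ∅) := fun k hk => dif_neg hk
  let A : ∀ k, Finset (ZMod (n k)) := fun k => (X k).1
  let B : ∀ k, Finset (ZMod (n k)) := fun k => (X k).2.1
  let U : ∀ k, Finset (ZMod (n k)) := fun k => (X k).2.2
  let S : ∀ k, Finset (ZMod (n k)) := fun k => A k ∪ B k
  have hS0 : ∀ k, 0 ∉ S k := by
    intro k
    by_cases h : ∃ x, Q k x
    · have h1 := (hX k h).2
      change 0 ∉ A k ∪ B k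
      rw [Finset.mem_union, not_or]
      exact ⟨h1.zeroA, h1.zeroB⟩
    · change 0 ∉ (X k).1 ∪ (X k).2.1
      rw [hX' k h]
      simp
  have hSn : ∀ k, ∀ s ∈ S k, -s ∈ S k := by
    intro k
    by_cases h : ∃ x, Q k x
    · have h1 := (hX k h).2
      intro s hs
      change -s ∈ A k ∪ B k
      change s ∈ A k ∪ B k at hs
      rw [Finset.mem_union] at hs ⊢
      exact hs.imp (h1.negA s) (h1.negB s)
    · change ∀ s ∈ (X k).1 ∪ (X k).2.1, -s ∈ (X k).1 ∪ (X k).2.1
      rw [hX' k h]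
      simp
  have hgood : ∀ k, (∃ x, Q k x) → (S k).Nonempty ∧
      ∀ j, j ≠ 0 → ‖Cyc.F (Cyc.uo (S k)) j‖ ≤ 1 / 2 := by
    intro k hk
    obtain ⟨h1, h2⟩ := hX k hk
    refine ⟨(Cyc.ne_A h1 h2).mono Finset.subset_union_left, Cyc.F_uo_le h1 h2⟩
  let G : ∀ k, SimpleGraph (ZMod (n k)) := fun k => circ (S k) (hS0 k) (hSn k)
  have hconn : ∀ k, (G k).Connected := by
    intro k
    by_cases h : ∃ x, Q k x
    · exact circ_connected (hgood k h).1 (hgood k h).2
    · have : Nonempty (ZMod (n k)) := ⟨0⟩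
      refine SimpleGraph.Connected.mk fun x y => ?_
      by_cases hxy : x = y
      · rw [hxy]
      · apply SimpleGraph.Adj.reachable
        change y - x ∈ (X k).1 ∪ (X k).2.1
        rw [hX' k h]
        simp only [Finset.union_empty, Finset.mem_erase, Finset.mem_univ, and_true]
        exact fun e => hxy (sub_eq_zero.mp e).symm
  have htrel : ∀ᶠ k in atTop, 0 < Trel (lazySRW (G k)) ∧ Trel (lazySRW (G k)) ≤ 4 := by
    filter_upwards [hex] with k hk
    exact trel_le (hgood k hk).1 (hgood k hk).2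
  -- the profile
  set q : ℕ → ℝ := fun k => Cyc.pp (n k) / 2 with hq
  have hq0 : ∀ᶠ k in atTop, 0 < q k := hn.eventually Cyc.pp_ev_pos
  have hqt : Tendsto q atTop (𝓝 0) := Cyc.pp_tendsto.comp hn
  have hprof : ∀ c : ℝ, 0 < c →
      Tendsto (fun k => d (lazySRW (G k)) ⌊c / q k⌋₊) atTop (𝓝 (Real.exp (-c))) := by
    intro c hc
    have h1 := Cyc.profile n hn A B U (by
      filter_upwards [hex] with k hk
      exact (hX k hk).2) hc
    refine h1.congr fun k => ?_
    exact (d_eq _).symm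
  -- a monotone version of the distances
  let d' : ℕ → ℕ → ℝ := fun k t => if ∃ x, Q k x then d (lazySRW (G k)) t else 0
  have hd'eq : ∀ᶠ k in atTop, ∀ t, d' k t = d (lazySRW (G k)) t := by
    filter_upwards [hex] with k hk t
    exact if_pos hk
  have hanti : ∀ k, Antitone (d' k) := by
    intro k s t hst
    by_cases h : ∃ x, Q k x
    · change (if ∃ x, Q k x then d (lazySRW (G k)) t else 0) ≤
        (if ∃ x, Q k x then d (lazySRW (G k)) s else 0)
      rw [if_pos h, if_pos h, d_eq, d_eq]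
      exact Cyc.tv_cpow_anti (Cyc.lz_nonneg _) (Cyc.lz_sum (hgood k h).1) hst
    · change (if ∃ x, Q k x then d (lazySRW (G k)) t else 0) ≤
        (if ∃ x, Q k x then d (lazySRW (G k)) s else 0)
      rw [if_neg h, if_neg h]
  have hprof' : ∀ c : ℝ, 0 < c →
      Tendsto (fun k => d' k ⌊c / q k⌋₊) atTop (𝓝 (Real.exp (-c))) := by
    intro c hc
    refine (hprof c hc).congr' ?_
    filter_upwards [hd'eq] with k hk
    exact (hk _).symm
  have hTeq : ∀ᶠ k in atTop, ∀ ε, sInf {t : ℕ | d' k t ≤ ε} = Tmix (lazySRW (G k)) ε := by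
    filter_upwards [hd'eq] with k hk ε
    simp only [hk]
    rfl
  have hratio : ∀ ε ε' : ℝ, 0 < ε → ε < 1 → 0 < ε' → ε' < 1 →
      Tendsto (fun k => (Tmix (lazySRW (G k)) ε : ℝ) / (Tmix (lazySRW (G k)) ε' : ℝ)) atTop
        (𝓝 (Real.log ε / Real.log ε')) := by
    intro ε ε' h1 h2 h3 h4
    refine (Cyc.ratio_of_profile d' q hq0 hanti hprof' h1 h2 h3 h4).congr' ?_
    filter_upwards [hTeq] with k hk
    rw [hk, hk]
  have hqinv : Tendsto (fun k => (q k)⁻¹) atTop atTop := by
    refine tendsto_inv_nhdsGT_zero.comp ?_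
    rw [tendsto_nhdsWithin_iff]
    exact ⟨hqt, hq0⟩
  refine ⟨G, inferInstance, fun k => circ_circulant, fun k => circ_transitive, hconn,
    htrel.mono fun k hk => hk.2, ?_, ⟨fun k => (q k)⁻¹, hqinv, ?_⟩, hratio, ?_⟩
  · -- product condition
    have h1 := Cyc.tmix_of_profile d' q hq0 hanti hprof' (ε := 1 / 4) (by norm_num) (by norm_num)
    have h2 : 0 < Real.log (1 / (1 / 4 : ℝ)) := Real.log_pos (by norm_num)
    have h3 := Filter.Tendsto.pos_mul_atTop h2 h1 hqinv
    have h4 : Tendsto (fun k => (Tmix (lazySRW (G k)) (1 / 4) : ℝ) * (1 / 4)) atTop atTop := by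
      refine Tendsto.atTop_mul_const (by norm_num) ?_
      refine h3.congr' ?_
      filter_upwards [hTeq, hq0] with k hk hk0
      rw [hk, mul_assoc, mul_inv_cancel₀ hk0.ne', mul_one]
    refine tendsto_atTop_mono' _ ?_ h4
    filter_upwards [htrel] with k hk
    obtain ⟨h5, h6⟩ := hk
    rw [le_div_iff₀ h5]
    have h7 : (0 : ℝ) ≤ Tmix (lazySRW (G k)) (1 / 4) := Nat.cast_nonneg _
    calc (Tmix (lazySRW (G k)) (1 / 4) : ℝ) * (1 / 4) * Trel (lazySRW (G k))
        ≤ (Tmix (lazySRW (G k)) (1 / 4) : ℝ) * (1 / 4) * 4 :=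
          mul_le_mul_of_nonneg_left h6 (by positivity)
      _ = _ := by ring
  · intro c hc
    exact hprof c hc
  · intro hcut
    have h1 := hcut (1 / 4) (by norm_num) (by norm_num)
    have h2 := hratio (1 / 4) (1 - 1 / 4) (by norm_num) (by norm_num) (by norm_num) (by norm_num)
    have h3 := tendsto_nhds_unique h1 h2
    have h4 : Real.log (1 - 1 / 4 : ℝ) ≠ 0 := by
      apply Real.log_ne_zero_of_pos_of_ne_one <;> norm_num
    rw [eq_div_iff h4, one_mul] at h3
    have h5 := Real.log_lt_log (show (0 : ℝ) < 1 / 4 by norm_num)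
      (show (1 / 4 : ℝ) < 1 - 1 / 4 by norm_num)
    linarith

end

end Pool.Agent.Results.MP_4b7267_pr.CirculantNoCutoff
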